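import Pool.Agent.N375.AV.F
import Pool.Agent.N375.AV.Ex
import Pool.Agent.S821.ArtinCount

/-!
# Artin's formula for every integer near the values of additive functions and of their compositions

Write `P(a, x)` for the number of primes `p ≤ x` modulo which the integer `a` is a primitive root, `A` for Artin's constant
and, for a squarefree `D ≠ 1`, `D ≡ 1 (mod 4)`, `δ(D) = (1 - μ(|D|) ∏_{q ∣ D} 1 / (q² - q - 1)) A` for the density with the
correction factor of Q1. Let `F = f_1 ∘ ⋯ ∘ f_k` be a composition of functions which are dominated by the largest prime factor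
of the argument: additive functions with `f (q^j) ≤ C q^j` and different values at different large primes (for example the sum
of the prime factors), the largest prime factor, Kempner's function. Let `α > 0`, `d ≥ 1`, `κ ≥ 0` and `1 / 2 < θ < 1` with
`d θ + κ < 1`, and let `C > 1`, `C (2 θ - 1) > θ (1 - θ)`. There is `c > 0` such that, for all `m ≤ N` but
`K N exp (- c' (log N)^(1/(k+1)))`, for EVERY integer `n ≥ 1` with `|n - α F(m)^d| ≤ F(m)^κ` and EVERY `x` with
`n ^ C ≤ x ≤ exp ((log n) ^ (1 + c))`: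

* `|P(D n, x) - A π(x)| ≤ ε π(x)`, `D` any nonzero integer (for instance `1` or `-1`);
* `|P(D n², x) - δ(D) π(x)| ≤ ε π(x)`, `D ≠ 1` squarefree, `D ≡ 1 (mod 4)` (the integers of Q1 with squarefree part `D`).

In particular this holds for the largest prime factor `n` of almost every integer `m`, and for the largest prime factor of its
predecessor, and so on. More generally `G (F m)` takes the place of `α F(m)^d`, where `G` is any function with steps bounded
below by a positive constant and growth at most `v^d`. The functions `F` take their values with large multiplicities and `F(m)`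
is in general of smaller size than `m`, and so this does not follow from the size of the exceptional set.

The tool is the one of helper375 (`Pool.Agent.N375.AV`): the preimage of a thin set under such a function is thin. The
exceptional integers are at most `X^θ` in number up to `X`, by the large sieve for primitive roots (library: the starting
theorem `FewExceptions` and its general form).
-/

set_option autoImplicit false

namespace Pool.Agent.Results.MP_991e92_nt.AdditiveValues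

open Finset
open Pool.Agent.N733.TG (Expanding expanding_pow)
open Pool.Agent.N375.AV (PD comp good_nat pd_additive pd_largest pd_kempner)

open Classical in
/-- the number of primes `p ≤ x` modulo which `a` is a primitive root -/
noncomputable def P (a : ℤ) (x : ℕ) : ℕ :=
  ((Finset.range (x + 1)).filter (fun p : ℕ => p.Prime ∧ orderOf (a : ZMod p) = p - 1)).card

/-- Artin's constant -/
noncomputable def A : ℝ := ∏' p : Nat.Primes, (1 - 1 / (((p : ℕ) : ℝ) * (((p : ℕ) : ℝ) - 1)))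

/-- the density of Q1, with its correction factor -/
noncomputable def δ (D : ℤ) : ℝ :=
  (1 - ((ArithmeticFunction.moebius D.natAbs : ℤ) : ℝ) *
      ∏ q ∈ D.natAbs.primeFactors, (1 / ((q : ℝ) ^ 2 - (q : ℝ) - 1))) * A

/-- `|P(a, x) - ρ π(x)| ≤ ε π(x)` for all integers `x` with `n ^ C ≤ x ≤ exp ((log n) ^ (1 + c))` -/
def Formula (a : ℤ) (ρ ε C c : ℝ) (n : ℕ) : Prop :=
  ∀ x : ℕ, (n : ℝ) ^ C ≤ x → (x : ℝ) ≤ Real.exp ((Real.log n) ^ (1 + c)) →
    |(P a x : ℝ) - ρ * (Nat.primeCounting x : ℝ)| ≤ ε * (Nat.primeCounting x : ℝ)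

lemma lin_iff (D : ℤ) (hD : D ≠ 0) (ε C c : ℝ) (n : ℕ) :
    Pool.Agent.S821.Artin.GoodE (Pool.Agent.H771R4.SE.dLin D hD) ε C c n ↔ Formula (D * n) A ε C c n := by
  unfold Pool.Agent.S821.Artin.GoodE Formula Pool.Agent.H771R4.SE.cntE P A
  simp only [Pool.Agent.H771R4.SE.dLin, Pool.Agent.H386R2.Artin.artinC, Int.cast_mul, Int.cast_natCast]

lemma sq_iff (D : ℤ) (hD : Squarefree D) (hD4 : D % 4 = 1) (hD1 : D ≠ 1) (ε C c : ℝ) (n : ℕ) :
    Pool.Agent.S821.Artin.GoodE (Pool.Agent.H771R4.SE.dSq D hD hD4 hD1) ε C c n ↔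
      Formula (D * (n : ℤ) ^ 2) (δ D) ε C c n := by
  unfold Pool.Agent.S821.Artin.GoodE Formula Pool.Agent.H771R4.SE.cntE P δ A
  simp only [Pool.Agent.H771R4.SE.dSq, Pool.Agent.H730R2.AA.dens, Int.cast_mul, Int.cast_natCast, Int.cast_pow]

/-- **Artin's formula near the values of additive functions and of their compositions.** Let `1 / 2 < θ < 1`, `C > 1` and
`C (2 θ - 1) > θ (1 - θ)`. There is `c > 0` such that for all compositions `F = f_1 ∘ ⋯ ∘ f_k` of functions dominated by the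
largest prime factor (`PD`; `F = comp fs`, `fs` the list of the `f_i`), all `G` with steps `≥ const > 0` and growth at most `v^d`
(`Expanding G d`), all `κ ≥ 0` with `d θ + κ < 1` and all `ε > 0`: (1) for every nonzero integer `D` there are `c' > 0` and `K`
such that for all `N ≥ 1`, for all `m ≤ N` but `K N exp (- c' (log N)^(1/(k+1)))`, EVERY integer `n ≥ 1` with
`|n - G (F m)| ≤ F(m)^κ` satisfies `|P(D n, x) - A π(x)| ≤ ε π(x)` for EVERY `x` with
`n ^ C ≤ x ≤ exp ((log n) ^ (1 + c))`; (2) for every squarefree `D ≠ 1`, `D ≡ 1 (mod 4)`, the same for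
`|P(D n², x) - δ(D) π(x)| ≤ ε π(x)`. Additive functions with `f (q^j) ≤ C q^j` and different values at different large primes, the
largest prime factor and Kempner's function are examples of such functions `f`, and `α v^d` with `α > 0`, `d ≥ 1` is an example
of `G`. -/
theorem result :
    (∀ θ C : ℝ, 1 / 2 < θ → θ < 1 → 1 < C → θ * (1 - θ) < C * (2 * θ - 1) → ∃ c : ℝ, 0 < c ∧
      ∀ fs : List (ℕ → ℕ), (∀ f ∈ fs, PD f) → ∀ (G : ℕ → ℝ) (d : ℝ), Expanding G d → ∀ κ : ℝ, 0 ≤ κ → d * θ + κ < 1 →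
        ∀ ε : ℝ, 0 < ε →
        (∀ D : ℤ, D ≠ 0 → ∃ c' K : ℝ, 0 < c' ∧ ∀ N : ℕ, 1 ≤ N →
          ({m : ℕ | 1 ≤ m ∧ m ≤ N ∧ ¬ ∀ n : ℕ, 1 ≤ n → |(n : ℝ) - G (comp fs m)| ≤ (comp fs m : ℝ) ^ κ →
            Formula (D * n) A ε C c n}.ncard : ℝ) ≤
            K * N * Real.exp (-(c' * Real.log N ^ ((1 : ℝ) / (fs.length + 1))))) ∧
        (∀ D : ℤ, Squarefree D → D % 4 = 1 → D ≠ 1 → ∃ c' K : ℝ, 0 < c' ∧ ∀ N : ℕ, 1 ≤ N →
          ({m : ℕ | 1 ≤ m ∧ m ≤ N ∧ ¬ ∀ n : ℕ, 1 ≤ n → |(n : ℝ) - G (comp fs m)| ≤ (comp fs m : ℝ) ^ κ →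
            Formula (D * (n : ℤ) ^ 2) (δ D) ε C c n}.ncard : ℝ) ≤
            K * N * Real.exp (-(c' * Real.log N ^ ((1 : ℝ) / (fs.length + 1)))))) ∧
    (∀ f : ℕ → ℕ, (∀ a b : ℕ, Nat.Coprime a b → f (a * b) = f a + f b) →
      (∃ C : ℕ, ∀ q j : ℕ, q.Prime → 1 ≤ j → f (q ^ j) ≤ C * q ^ j) →
      (∃ P : ℕ, ∀ p q : ℕ, p.Prime → q.Prime → P ≤ p → P ≤ q → f p = f q → p = q) → PD f) ∧
    PD (fun n => n.primeFactors.sup id) ∧ PD (fun n => sInf {k : ℕ | n ∣ k.factorial}) ∧
    ∀ α d : ℝ, 0 < α → 1 ≤ d → Expanding (fun v => α * (v : ℝ) ^ d) d := by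
  refine ⟨fun θ C hθ hθ1 hC hCθ => ?_, fun f hadd hgr hinj => pd_additive hadd hgr hinj, pd_largest, pd_kempner,
    fun α d hα hd => expanding_pow hα hd⟩
  obtain ⟨c, hc, h⟩ := Pool.Agent.S821.Artin.few θ C hθ hθ1 hC hCθ
  refine ⟨c, hc, fun fs hfs G d hG κ hκ h1 ε hε => ?_⟩
  have key : ∀ (Good : ℕ → Prop) (dt : Pool.Agent.H771R4.SE.Dat),
      (∀ n, Pool.Agent.S821.Artin.GoodE dt ε C c n ↔ Good n) → ∃ c' K : ℝ, 0 < c' ∧ ∀ N : ℕ, 1 ≤ N →
      ({m : ℕ | 1 ≤ m ∧ m ≤ N ∧ ¬ ∀ n : ℕ, 1 ≤ n → |(n : ℝ) - G (comp fs m)| ≤ (comp fs m : ℝ) ^ κ →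
        Good n}.ncard : ℝ) ≤ K * N * Real.exp (-(c' * Real.log N ^ ((1 : ℝ) / (fs.length + 1)))) := by
    intro Good dt hiff
    obtain ⟨K, hK0, hK⟩ := h dt ε hε
    obtain ⟨c', K', hc', h2⟩ := good_nat (fun _ => True) Good fs hfs hG (s := θ) (κ := κ) (by linarith) hκ h1
      (fun η hη => ⟨K, fun X hX => by
        have hX1 : (1 : ℝ) ≤ X := by exact_mod_cast hX
        have e : {t : ℕ | 1 ≤ t ∧ t ≤ X ∧ True ∧ ¬ Good t} =
            {t : ℕ | 1 ≤ t ∧ t ≤ X ∧ ¬ Pool.Agent.S821.Artin.GoodE dt ε C c t} := by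
          ext t
          simp only [Set.mem_ofPred_eq, true_and, hiff]
        rw [e]
        refine (hK X).trans (mul_le_mul_of_nonneg_left ?_ hK0)
        exact Real.rpow_le_rpow_of_exponent_le hX1 (by linarith)⟩)
    refine ⟨c', K', hc', fun N hN => ?_⟩
    have := h2 N hN
    simpa only [true_imp_iff] using this
  exact ⟨fun D hD => key _ (Pool.Agent.H771R4.SE.dLin D hD) (lin_iff D hD ε C c),
    fun D hD hD4 hD1 => key _ (Pool.Agent.H771R4.SE.dSq D hD hD4 hD1) (sq_iff D hD hD4 hD1 ε C c)⟩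

end Pool.Agent.Results.MP_991e92_nt.AdditiveValues
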